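import Pool.Agent.H82.EOL.Stmts

set_option autoImplicit false

namespace Pool.Agent.H40.EOL

open Finset Pool.Agent.H82.SVL Pool.Agent.H82.EOL

theorem w1_thm : S_W1 := by
  intro D _ _ srt Y V d hd
  have hmem : srt d ∈ (univ : Finset D).image srt := mem_image_of_mem _ (mem_univ d)
  unfold gw
  rw [← mul_prod_erase _ _ hmem, ← mul_prod_erase _ _ hmem]
  -- the other factors do not change
  have hother : ∏ s ∈ ((univ : Finset D).image srt).erase (srt d),
      ∏ j ∈ range ((insert d V).filter (fun a => srt a = s)).card,
        (((univ.filter (fun a => srt a = s)).card : ℝ) - j) /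
          (((univ.filter (fun a => srt a = s)).card : ℝ) - j
            - (Y.filter (fun a => srt a = s)).card)
      = ∏ s ∈ ((univ : Finset D).image srt).erase (srt d),
      ∏ j ∈ range (V.filter (fun a => srt a = s)).card,
        (((univ.filter (fun a => srt a = s)).card : ℝ) - j) /
          (((univ.filter (fun a => srt a = s)).card : ℝ) - j
            - (Y.filter (fun a => srt a = s)).card) := by
    apply prod_congr rfl
    intro s hs
    have hne : ¬ srt d = s := fun h => (mem_erase.mp hs).1 h.symm
    rw [filter_insert, if_neg hne]
  rw [hother]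
  -- the factor of the sort of `d`
  have hcard : ((insert d V).filter (fun a => srt a = srt d)).card
      = (V.filter (fun a => srt a = srt d)).card + 1 := by
    rw [filter_insert, if_pos rfl, card_insert_of_notMem]
    intro h
    exact hd (mem_filter.mp h).1
  rw [hcard, prod_range_succ]
  have hfr : (fr srt V d : ℝ) = ((univ.filter (fun a => srt a = srt d)).card : ℝ)
      - ((V.filter (fun a => srt a = srt d)).card : ℝ) := by
    have h1 : fib srt d \ V = (univ.filter (fun a => srt a = srt d))
        \ (V.filter (fun a => srt a = srt d)) := by
      ext a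
      simp only [fib, mem_sdiff, mem_filter, mem_univ, true_and, not_and]
      constructor
      · rintro ⟨h2, h3⟩
        exact ⟨h2, fun h4 => absurd h4 h3⟩
      · rintro ⟨h2, h3⟩
        exact ⟨h2, fun h4 => h3 h4 h2⟩
    have hsub : V.filter (fun a => srt a = srt d) ⊆ univ.filter (fun a => srt a = srt d) :=
      filter_subset_filter _ (subset_univ V)
    unfold fr
    rw [h1, card_sdiff_of_subset hsub, Nat.cast_sub (card_le_card hsub)]
  unfold ny
  rw [hfr]
  ring

end Pool.Agent.H40.EOL
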